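import Pool.Agent.W809.FKM.Stms

/-! # S_WPOL: polar part with small kernel, odd, nuclear difference -/

set_option autoImplicit false

open Complex

namespace Pool.Agent.W930.FKM.Wpol

open Pool.Agent.W809.FKM

variable {E : Type} [NormedAddCommGroup E] [InnerProductSpace ℂ E] [CompleteSpace E]

theorem ker_iff (T : E →L[ℂ] E) (x : E) : (star T * T) x = 0 ↔ T x = 0 := by
  constructor
  · intro h
    have h1 : inner ℂ (T x) (T x) = 0 := by
      rw [← ContinuousLinearMap.adjoint_inner_left]
      change inner ℂ ((star T * T) x) x = 0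
      rw [h, inner_zero_left]
    exact inner_self_eq_zero.mp h1
  · intro h
    change star T (T x) = 0
    rw [h, map_zero]

theorem gap (D H T : E →L[ℂ] E) (hD : IsCompactOperator D) (hH : H = 1 - D)
    (hT : H = star T * T) :
    FiniteDimensional ℂ (LinearMap.ker (T : E →ₗ[ℂ] E)) ∧
    ∃ ε : ℝ, 0 < ε ∧ ∀ t ∈ spectrum ℝ H, t = 0 ∨ ε ≤ t := by
  have hfd := ContinuousLinearMap.finite_dimensional_eigenspace hD (1 : ℂ) one_ne_zero
  set K := Module.End.eigenspace (D : E →ₗ[ℂ] E) 1 with hK
  have memK : ∀ x, x ∈ K ↔ H x = 0 := by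
    intro x
    rw [hK, Module.End.mem_eigenspace_iff, hH]
    simp only [one_smul, ContinuousLinearMap.coe_coe, sub_apply,
      one_apply_eq_self]
    rw [sub_eq_zero]
    exact eq_comm
  have hHs : ∀ x y, inner ℂ (H x) y = inner ℂ x (H y) := by
    intro x y
    rw [hT]
    change inner ℂ ((ContinuousLinearMap.adjoint T) (T x)) y =
      inner ℂ x ((ContinuousLinearMap.adjoint T) (T y))
    rw [ContinuousLinearMap.adjoint_inner_left, ContinuousLinearMap.adjoint_inner_right]
  refine ⟨?_, ?_⟩
  · refine Submodule.finiteDimensional_of_le (S₂ := K) ?_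
    intro x hx
    rw [memK, hT, ker_iff]
    exact hx
  let P : E →L[ℂ] E := K.starProjection
  have hPmem : ∀ x, P x ∈ K := fun x => Submodule.starProjection_apply_mem K x
  have hPself : ∀ x ∈ K, P x = x := fun x hx => Submodule.starProjection_eq_self_iff.mpr hx
  have hPs : ∀ x y, inner ℂ (P x) y = inner ℂ x (P y) := by
    intro x y
    exact Submodule.inner_starProjection_left_eq_right K x y
  have hPH : ∀ x, P (H x) = 0 := by
    intro x
    have : inner ℂ (P (H x)) (P (H x)) = 0 := by
      rw [hPs, hHs, hPself _ (hPmem _), (memK _).mp (hPmem _), inner_zero_right]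
    exact inner_self_eq_zero.mp this
  have hPc : IsCompactOperator P := by
    have : IsCompactOperator (id : K → K) := isCompactOperator_id_iff_finiteDimensional.mpr hfd
    have h2 := (this.comp_clm K.orthogonalProjectionOnto).clm_comp K.subtypeL
    exact h2
  have hD' : IsCompactOperator (D - P : E →L[ℂ] E) := hD.sub hPc
  have hne : ¬ Module.End.HasEigenvalue ((D - P : E →L[ℂ] E) : E →ₗ[ℂ] E) 1 := by
    intro h
    obtain ⟨x, hx⟩ := h.exists_hasEigenvector
    have h1 : D x - P x = x := by
      have := hx.apply_eq_smul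
      simpa using this
    have h2 : H x + P x = 0 := by
      rw [hH]
      simp only [sub_apply, one_apply_eq_self]
      rw [sub_add, h1, sub_self]
    have h3 : P x = 0 := by
      have := congrArg P h2
      rw [map_add, hPH, zero_add, map_zero, hPself _ (hPmem _)] at this
      exact this
    rw [h3, add_zero] at h2
    apply hx.2
    rw [← h3]
    exact (hPself x ((memK x).mpr h2)).symm
  obtain ⟨κ, hκ⟩ := IsCompactOperator.antilipschitz_of_not_hasEigenvalue hD' one_ne_zero hne
  have hb : ∀ x, ‖x‖ ≤ κ * ‖H x + P x‖ := by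
    intro x
    have := hκ.le_mul_dist x 0
    rw [dist_zero_right, map_zero, dist_zero_right] at this
    refine this.trans (le_of_eq ?_)
    congr 1
    rw [hH, ← norm_neg]
    congr 1
    simp
    abel
  refine ⟨min 1 (1 / (κ + 1)), by positivity, ?_⟩
  intro t ht
  by_cases h0 : t = 0
  · exact Or.inl h0
  right
  have hnn : 0 ≤ t := by
    rw [hT] at ht
    exact spectrum_nonneg_of_nonneg (star_mul_self_nonneg T) ht
  by_cases h1 : t = 1
  · rw [h1]
    exact min_le_left _ _
  refine (min_le_right _ _).trans ?_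
  have hμ : (1 - t : ℂ) ≠ 0 := by
    intro h
    apply h1
    have := sub_eq_zero.mp h
    exact_mod_cast this.symm
  rcases IsCompactOperator.hasEigenvalue_or_mem_resolventSet hD hμ with h | h
  · obtain ⟨x, hx⟩ := h.exists_hasEigenvector
    have e1 : D x = (1 - t : ℂ) • x := hx.apply_eq_smul
    have e2 : H x = (t : ℂ) • x := by
      rw [hH]
      simp only [sub_apply, one_apply_eq_self]
      rw [e1, sub_smul, one_smul, sub_sub_cancel]
    have e3 : P x = 0 := by
      have := hPH x
      rw [e2, map_smul, smul_eq_zero] at this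
      exact this.resolve_left (by exact_mod_cast h0)
    have e4 := hb x
    rw [e2, e3, add_zero, norm_smul, Complex.norm_real, Real.norm_of_nonneg hnn, ← mul_assoc] at e4
    have hx0 : 0 < ‖x‖ := norm_pos_iff.mpr hx.2
    have e5 : 1 ≤ (κ : ℝ) * t := by
      by_contra hlt
      push Not at hlt
      nlinarith
    rw [div_le_iff₀ (by positivity)]
    nlinarith [κ.2]
  · exfalso
    rw [spectrum.mem_resolventSet_iff] at h
    rw [spectrum.mem_iff] at ht
    apply ht
    rw [← IsUnit.neg_iff]
    convert h using 1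
    rw [hH]
    ext x
    simp [Algebra.algebraMap_eq_smul_one, sub_smul]
    abel

/-- `√(max t ε)` -/
noncomputable def s (ε t : ℝ) : ℝ := Real.sqrt (max t ε)
/-- auxiliary function -/
noncomputable def psi (ε t : ℝ) : ℝ := 1 / (s ε t * (1 + s ε t))
/-- auxiliary function -/
noncomputable def phi (ε t : ℝ) : ℝ := 1 + (1 - t) * psi ε t

theorem s_pos {ε : ℝ} (hε : 0 < ε) (t : ℝ) : 0 < s ε t :=
  Real.sqrt_pos.mpr (lt_max_of_lt_right hε)

theorem cont_s (ε : ℝ) : Continuous (s ε) := by unfold s; fun_prop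

theorem cont_psi {ε : ℝ} (hε : 0 < ε) : Continuous (psi ε) := by
  unfold psi
  refine Continuous.div continuous_const ((cont_s ε).mul (continuous_const.add (cont_s ε))) ?_
  intro t
  have := s_pos hε t
  positivity

theorem cont_phi {ε : ℝ} (hε : 0 < ε) : Continuous (phi ε) := by
  unfold phi
  have := cont_psi hε
  fun_prop

theorem phi_sq {ε : ℝ} (hε : 0 < ε) {t : ℝ} (h : ε ≤ t) : t * phi ε t ^ 2 = 1 := by
  have hs := s_pos hε t
  have h2 : s ε t ^ 2 = t := by
    unfold s
    rw [max_eq_left h, Real.sq_sqrt (hε.le.trans h)]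
  have h3 : phi ε t = 1 / s ε t := by
    unfold phi psi
    have : 1 - t = (1 - s ε t) * (1 + s ε t) := by linear_combination h2
    rw [this]
    field_simp
    ring
  rw [h3, div_pow, one_pow, h2]
  have : 0 < t := hε.trans_le h
  field_simp

/-- the indicator of zero on the spectrum -/
noncomputable def qq (ε t : ℝ) : ℝ := 1 - t * phi ε t ^ 2

theorem cont_qq {ε : ℝ} (hε : 0 < ε) : Continuous (qq ε) := by
  unfold qq
  have := cont_phi hε
  fun_prop

theorem qq_zero (ε : ℝ) : qq ε 0 = 1 := by simp [qq]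

theorem qq_ge {ε : ℝ} (hε : 0 < ε) {t : ℝ} (h : ε ≤ t) : qq ε t = 0 := by
  unfold qq
  rw [phi_sq hε h, sub_self]

section cfcs

variable (H : E →L[ℂ] E) (hH : IsSelfAdjoint H) {ε : ℝ} (hε : 0 < ε)

include hH hε

theorem Q_eq : cfc (qq ε) H = 1 - cfc (phi ε) H * cfc (phi ε) H * H := by
  have cφ := cont_phi hε
  have e1 : cfc (phi ε) H * cfc (phi ε) H * H = cfc (fun t => phi ε t * phi ε t * t) H := by
    rw [cfc_mul (fun t => phi ε t * phi ε t) (fun t => t) H, cfc_mul (phi ε) (phi ε) H,
      cfc_id' ℝ H]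
  rw [e1, ← cfc_const_one ℝ H, ← cfc_sub (fun _ => 1) (fun t => phi ε t * phi ε t * t) H]
  congr 1
  funext t
  simp only [qq]
  ring

theorem Q_idem (hgap : ∀ t ∈ spectrum ℝ H, t = 0 ∨ ε ≤ t) :
    cfc (qq ε) H * cfc (qq ε) H = cfc (qq ε) H := by
  have cq := cont_qq hε
  rw [← cfc_mul (qq ε) (qq ε) H]
  refine cfc_congr ?_
  intro t ht
  rcases hgap t ht with h | h
  · simp only [h, qq_zero, mul_one]
  · simp only [qq_ge hε h, mul_zero]

theorem H_Q (hgap : ∀ t ∈ spectrum ℝ H, t = 0 ∨ ε ≤ t) : H * cfc (qq ε) H = 0 := by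
  have cq := cont_qq hε
  nth_rewrite 1 [← cfc_id' ℝ H]
  rw [← cfc_mul (fun t => t) (qq ε) H]
  have : cfc (fun t => t * qq ε t) H = cfc (fun _ => (0 : ℝ)) H := by
    refine cfc_congr ?_
    intro t ht
    rcases hgap t ht with h | h
    · simp only [h, zero_mul]
    · simp only [qq_ge hε h, mul_zero]
  rw [this, cfc_const_zero]

theorem F_sub_one : cfc (phi ε) H - 1 = (1 - H) * cfc (psi ε) H := by
  have cψ := cont_psi hε
  have e2 : 1 - H = cfc (fun t : ℝ => 1 - t) H := by
    rw [cfc_sub (fun _ => (1 : ℝ)) (fun t => t) H, cfc_const_one ℝ H, cfc_id' ℝ H]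
  have e3 : (1 : E →L[ℂ] E) = cfc (fun _ : ℝ => (1 : ℝ)) H := (cfc_const_one ℝ H).symm
  rw [e2, ← cfc_mul (fun t => 1 - t) (psi ε) H, sub_eq_iff_eq_add, e3,
    ← cfc_add H (fun t => (1 - t) * psi ε t) (fun _ => 1)]
  congr 1
  funext t
  unfold phi
  ring

theorem F_comm : cfc (phi ε) H * H = H * cfc (phi ε) H := by
  have := (cfc_commute_cfc (phi ε) (fun t => t) H).eq
  rwa [cfc_id' ℝ H] at this

end cfcs

theorem main (h1 : S_INTW) (h2 : S_NID) : S_WPOL := by
  intro E _ _ _ Θ V L hΘ hV1 _ hVo hL hLs hLt hnuc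
  obtain ⟨nl, nr, _, ns, nc, _⟩ := h2 E
  set T : E →L[ℂ] E := L * V * L + (1 - L) with hTdef
  set C : E →L[ℂ] E := (1 - L) * V * L with hCdef
  set D : E →L[ℂ] E := star C * C with hDdef
  have hDn : Nuc D := nl _ _ hnuc
  set H : E →L[ℂ] E := star T * T with hHdef
  have hL' : (1 - L) * L = 0 := by rw [sub_mul, one_mul, hL, sub_self]
  have hL'' : L * (1 - L) = 0 := by rw [mul_sub, mul_one, hL, sub_self]
  have hLL : (1 - L) * (1 - L) = 1 - L := by rw [mul_sub, mul_one, hL', sub_zero]
  have hTs : star T = L * star V * L + (1 - L) := by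
    rw [hTdef, star_add, star_mul, star_mul, star_sub, star_one, hLs, mul_assoc]
  have hHD : H = 1 - D := by
    have hCs : star C = L * star V * (1 - L) := by
      rw [hCdef, star_mul, star_mul, star_sub, star_one, hLs, mul_assoc]
    have e1 : H = L * star V * L * (L * V * L) + L * star V * (L * (1 - L)) +
        (1 - L) * L * V * L + (1 - L) * (1 - L) := by
      rw [hHdef, hTs, hTdef]
      noncomm_ring
    have e2 : D = L * star V * (1 - L) * ((1 - L) * V * L) := by
      rw [hDdef, hCs, hCdef]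
    have e3 : L * star V * L * (L * V * L) + L * star V * (1 - L) * ((1 - L) * V * L) =
        L * (star V * V) * L := by
      calc _ = L * star V * (L * L) * V * L + L * star V * ((1 - L) * (1 - L)) * V * L := by
            noncomm_ring
        _ = L * star V * L * V * L + L * star V * (1 - L) * V * L := by rw [hL, hLL]
        _ = _ := by noncomm_ring
    rw [hV1, mul_one, hL] at e3
    rw [e1, hL'', hL', hLL, mul_zero, zero_mul, zero_mul, add_zero, add_zero,
      eq_sub_iff_add_eq, e2, add_right_comm, e3]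
    abel
  obtain ⟨hfd, ε, hε, hgap⟩ := gap D H T (nc _ hDn) hHD rfl
  have hHsa : IsSelfAdjoint H := IsSelfAdjoint.star_mul_self T
  have cφ := cont_phi hε
  set F : E →L[ℂ] E := cfc (phi ε) H with hF
  have hFs : star F = F := (IsSelfAdjoint.cfc (f := phi ε) (a := H)).star_eq
  set Q : E →L[ℂ] E := cfc (qq ε) H with hQ
  have hFF : Q = 1 - F * F * H := Q_eq H hHsa hε
  have hQs : star Q = Q := (IsSelfAdjoint.cfc (f := qq ε) (a := H)).star_eq
  have hQQ : Q * Q = Q := Q_idem H hHsa hε hgap
  have hHQ : H * Q = 0 := H_Q H hHsa hε hgap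
  have hQT : ∀ x, Q x = x ↔ T x = 0 := by
    intro x
    rw [← ker_iff T x]
    constructor
    · intro h
      change H x = 0
      rw [← h]
      change (H * Q) x = 0
      rw [hHQ]
      rfl
    · intro h
      have h3 : H x = 0 := h
      rw [hFF]
      change x - F (F (H x)) = x
      rw [h3, map_zero, map_zero, sub_zero]
  -- oddness
  have hTo : OddT Θ T := by
    have o1 : OddT Θ (L * V * L) := OddT.conj hVo hLt hLs
    have o2 : OddT Θ (1 - L) := OddT.sub OddT.one (hLt.odd hLs)
    exact OddT.add o1 o2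
  have hTo' : ∀ x, (star T) (Θ x) = Θ (T x) := by
    intro x
    have h3 := hTo (Θ x)
    rw [hΘ, map_neg] at h3
    have h4 := congrArg Θ h3
    rw [map_neg, hΘ] at h4
    exact (neg_injective h4).symm
  set H' : E →L[ℂ] E := T * star T with hH'
  have hH'sa : IsSelfAdjoint H' := IsSelfAdjoint.mul_star_self T
  have i1 : ∀ x, Θ (H' x) = H (Θ x) := by
    intro x
    change Θ (T ((star T) x)) = (star T) (T (Θ x))
    rw [hTo, hTo']
  have i2 : ∀ x, Θ (cfc (phi ε) H' x) = F (Θ x) :=
    h1 E Θ H' H (phi ε) Θ.continuous (fun x y => map_add Θ x y)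
      (fun c x => by rw [map_smulₛₗ]; simp) hH'sa hHsa i1 cφ
  have i3 : ∀ x, (star T) (cfc (phi ε) H' x) = F ((star T) x) :=
    h1 E (fun x => (star T) x) H' H (phi ε) (star T).continuous (fun x y => map_add _ x y)
      (fun c x => by rw [map_smul]) hH'sa hHsa (fun x => rfl) cφ
  have hLT : ∀ x, L (T x) = T (L x) := by
    intro x
    have e1 : L * T = T * L := by
      calc L * T = L * L * V * L + L * (1 - L) := by rw [hTdef]; noncomm_ring
        _ = L * V * (L * L) + (1 - L) * L := by rw [hL, hL', hL'']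
        _ = T * L := by rw [hTdef]; noncomm_ring
    exact congrArg (fun A : E →L[ℂ] E => A x) e1
  have hLTs : ∀ x, L ((star T) x) = (star T) (L x) := by
    intro x
    have e1 : L * star T = star T * L := by
      rw [hTs]
      calc L * (L * star V * L + (1 - L)) = L * L * star V * L + L * (1 - L) := by noncomm_ring
        _ = L * star V * (L * L) + (1 - L) * L := by rw [hL, hL', hL'']
        _ = _ := by noncomm_ring
    exact congrArg (fun A : E →L[ℂ] E => A x) e1
  have i4 : ∀ x, L (F x) = F (L x) :=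
    h1 E L H H (phi ε) L.continuous (fun x y => map_add _ x y)
      (fun c x => by rw [map_smul]) hHsa hHsa (fun x => by
        change L ((star T) (T x)) = (star T) (T (L x))
        rw [hLTs, hLT]) cφ
  refine ⟨T * F, Q, hQQ, hQs, hQT, ?_, ?_, ?_, ?_, ?_⟩
  · refine Submodule.finiteDimensional_of_le (S₂ := LinearMap.ker (T : E →ₗ[ℂ] E)) ?_
    rintro _ ⟨x, rfl⟩
    change T (Q x) = 0
    rw [← hQT]
    exact congrArg (fun A : E →L[ℂ] E => A x) hQQ
  · have hcomm : F * H = H * F := F_comm H hHsa hε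
    rw [star_mul, hFs, hFF, sub_sub_cancel]
    calc F * star T * (T * F) = F * H * F := by rw [hHdef]; noncomm_ring
      _ = F * F * H := by rw [mul_assoc, ← hcomm, mul_assoc]
  · intro x
    rw [star_mul, hFs]
    change T (F (Θ x)) = Θ (F ((star T) x))
    rw [← i2, hTo, ← i3]
  · ext x
    change T (F (L x)) = L (T (F x))
    rw [← i4, hLT]
  · have e1 : F - 1 = D * cfc (psi ε) H := by
      rw [hF, F_sub_one H hHsa hε, hHD, sub_sub_cancel]
    have e3 : T * F - T = T * (D * cfc (psi ε) H) := by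
      rw [← e1, mul_sub, mul_one]
    rw [e3]
    exact nl _ _ (nr _ _ hDn)

end Pool.Agent.W930.FKM.Wpol
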